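import Mathlib
import Pool.Agent.H75.LiebShoot

/-!
For every `p > 1` the equation `Δψ = (|ψ|^(2p-2) - |x|⁻¹) ψ` on `ℝ³` has a positive continuous
solution in `M = {ψ ∈ L¹_loc : ∇ψ ∈ L²_loc}`.
-/

open Set Filter Topology MeasureTheory
open scoped ContDiff

noncomputable section

namespace Pool.Agent.Results.MP_30ce6b_an.PositiveSolution

/-- Euclidean three-space. -/
abbrev E3 : Type := EuclideanSpace ℝ (Fin 3)

/-- Test functions: smooth and compactly supported. -/
def IsTest (η : E3 → ℝ) : Prop := ContDiff ℝ ∞ η ∧ HasCompactSupport η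

/-- `G` is the distributional gradient of `ψ`:
`∫ ψ ∂ᵢη = - ∫ Gᵢ η` for every test function `η` and every coordinate `i`. -/
def IsDistribGradient (ψ : E3 → ℝ) (G : E3 → E3) : Prop :=
  ∀ η : E3 → ℝ, IsTest η → ∀ i : Fin 3,
    ∫ x, ψ x * fderiv ℝ η x (EuclideanSpace.single i (1 : ℝ)) = - ∫ x, G x i * η x

/-- `ψ ∈ M` with distributional gradient `G`: `ψ ∈ L¹_loc(ℝ³)` and `∇ψ = G ∈ L²_loc(ℝ³)`. -/
def InM (ψ : E3 → ℝ) (G : E3 → E3) : Prop :=
  LocallyIntegrable ψ volume ∧ (∀ K : Set E3, IsCompact K → MemLp G 2 (volume.restrict K)) ∧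
    IsDistribGradient ψ G

/-- `ψ` is a solution of `(E_p)`: `Δψ = (|ψ|^(2p-2) - |x|⁻¹) ψ` in the sense of distributions
on `ℝ³`, with `ψ ∈ M` and `|ψ|^(2p-1) ∈ L¹_loc`. (For `ψ ∈ M` the function `|x|⁻¹ ψ` is
automatically locally integrable; we record this as well, so that all the integrals below are
those of integrable functions.) -/
def IsSolution (p : ℝ) (ψ : E3 → ℝ) : Prop :=
  ∃ G : E3 → E3, InM ψ G ∧ LocallyIntegrable (fun x => |ψ x| ^ (2 * p - 1)) volume ∧
    LocallyIntegrable (fun x => ‖x‖⁻¹ * ψ x) volume ∧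
    ∀ η : E3 → ℝ, IsTest η →
      (∫ x, fderiv ℝ η x (G x)) + ∫ x, η x * ((|ψ x| ^ (2 * p - 2) - ‖x‖⁻¹) * ψ x) = 0

/-- Integration in polar coordinates. -/
lemma integral_polar {f : E3 → ℝ} (hf : Integrable f) :
    ∫ x, f x = ∫ w : Metric.sphere (0 : E3) 1,
      (∫ r in Ioi (0:ℝ), r ^ 2 * f (r • (w : E3))) ∂((volume : Measure E3).toSphere) := by
  have hdim : Module.finrank ℝ E3 - 1 = 2 := by simp
  have hmp := (volume : Measure E3).measurePreserving_homeomorphUnitSphereProd
  rw [hdim] at hmp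
  have hme := (homeomorphUnitSphereProd E3).measurableEmbedding
  set g : Metric.sphere (0 : E3) 1 × Ioi (0:ℝ) → ℝ := fun q => f ((q.2 : ℝ) • (q.1 : E3)) with hg
  have hcomp : ∀ x : ({(0 : E3)}ᶜ : Set E3), g (homeomorphUnitSphereProd E3 x) = f x := by
    intro x
    simp only [hg]
    congr 1
    have hx : (x : E3) ≠ 0 := x.2
    simp [smul_smul, mul_inv_cancel₀ (norm_ne_zero_iff.mpr hx)]
  have h1 : ∫ x, f x = ∫ x : ({(0 : E3)}ᶜ : Set E3), f x ∂(volume.comap Subtype.val) := by
    rw [integral_subtype_comap (measurableSet_singleton _).compl fun x ↦ f x,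
      restrict_compl_singleton]
  have h2 : ∫ x : ({(0 : E3)}ᶜ : Set E3), f x ∂(volume.comap Subtype.val) =
      ∫ q, g q ∂(((volume : Measure E3).toSphere).prod (Measure.volumeIoiPow 2)) := by
    rw [← hmp.integral_comp hme]
    simp only [hcomp]
  have hint : Integrable g (((volume : Measure E3).toSphere).prod (Measure.volumeIoiPow 2)) := by
    rw [← hmp.integrable_comp_emb hme]
    have : g ∘ (homeomorphUnitSphereProd E3) = fun x : ({(0 : E3)}ᶜ : Set E3) => f x := by
      funext x; exact hcomp x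
    rw [this]
    have h3 : IntegrableOn f ({(0 : E3)}ᶜ) volume := hf.integrableOn
    rw [integrableOn_iff_comap_subtypeVal (by measurability)] at h3
    exact h3
  rw [h1, h2, integral_prod _ hint]
  congr 1
  funext w
  simp only [Measure.volumeIoiPow, ENNReal.ofReal, hg]
  rw [integral_withDensity_eq_integral_smul,
    integral_subtype_comap measurableSet_Ioi
      fun a ↦ Real.toNNReal (a ^ 2) • f (a • (w : E3)),
    setIntegral_congr_fun measurableSet_Ioi fun x hx ↦ ?_]
  · simp only [NNReal.smul_def]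
    rw [Real.coe_toNNReal _ (by positivity), smul_eq_mul]
  · exact (measurable_subtype_coe.pow_const _).real_toNNReal

/-- The profile of a positive radial solution: `m = r² φ'`. -/
structure Profile (q a : ℝ) (φ m : ℝ → ℝ) : Prop where
  ha : 0 < a
  φc : Continuous φ
  mc : Continuous m
  m0 : m 0 = 0
  hφ : ∀ r, 0 ≤ r → 0 < φ r ∧ φ r ≤ a
  dφ : ∀ r, 0 < r → HasDerivAt φ (m r / r ^ 2) r
  dm : ∀ r, 0 ≤ r → HasDerivAt m (r * (r * φ r ^ (q + 1) - φ r)) r
  hm : ∀ r, 0 ≤ r → m r ≤ 0 ∧ -(a * r ^ 2 / 2) ≤ m r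

/-- the gradient of `x ↦ φ ‖x‖` -/
def Grad (m : ℝ → ℝ) (x : E3) : E3 := (m ‖x‖ / ‖x‖ ^ 3) • x

variable {q a : ℝ} {φ m : ℝ → ℝ}

lemma Profile.antitone (h : Profile q a φ m) : AntitoneOn φ (Ici 0) := by
  apply antitoneOn_of_deriv_nonpos (convex_Ici 0) h.φc.continuousOn
  · intro x hx
    rw [interior_Ici] at hx
    exact (h.dφ x hx).differentiableAt.differentiableWithinAt
  · intro x hx
    rw [interior_Ici] at hx
    have hx0 : 0 < x := hx
    rw [(h.dφ x hx).deriv]
    exact div_nonpos_of_nonpos_of_nonneg (h.hm x hx0.le).1 (by positivity)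

lemma Profile.lip (h : Profile q a φ m) {r s : ℝ} (hr : 0 ≤ r) (hs : 0 ≤ s) :
    |φ r - φ s| ≤ a / 2 * |r - s| := by
  wlog hrs : r ≤ s generalizing r s
  · rw [abs_sub_comm, abs_sub_comm r s]
    exact this hs hr (le_of_not_ge hrs)
  have hanti := h.antitone
  have hmono : MonotoneOn (fun x => φ x + a * x / 2) (Ici 0) := by
    have := h.φc
    apply monotoneOn_of_deriv_nonneg (convex_Ici 0) (by fun_prop)
    · intro x hx
      rw [interior_Ici] at hx
      exact ((h.dφ x hx).add
        (((hasDerivAt_id x).const_mul a).div_const 2)).differentiableAt.differentiableWithinAt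
    · intro x hx
      rw [interior_Ici] at hx
      have hx0 : 0 < x := hx
      have hd := (h.dφ x hx).add (((hasDerivAt_id x).const_mul a).div_const 2)
      have e : deriv (fun x => φ x + a * x / 2) x = _ := hd.deriv
      rw [e]
      have h2 : -(a / 2) ≤ m x / x ^ 2 := by
        rw [le_div_iff₀ (by positivity)]
        have := (h.hm x hx0.le).2
        linarith
      linarith
  have h1 := hanti hr hs hrs
  have h2 := hmono hr hs hrs
  simp only at h2
  rw [abs_of_nonneg (by linarith), abs_of_nonpos (by linarith)]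
  linarith

lemma Profile.lipschitz (h : Profile q a φ m) :
    LipschitzWith (Real.toNNReal (a / 2)) (fun x : E3 => φ ‖x‖) := by
  refine LipschitzWith.of_dist_le_mul fun x y => ?_
  rw [Real.dist_eq, dist_eq_norm, Real.coe_toNNReal _ (by have := h.ha; positivity)]
  refine (h.lip (norm_nonneg x) (norm_nonneg y)).trans ?_
  have := h.ha
  gcongr
  exact abs_norm_sub_norm_le x y

lemma Profile.coef_bound (h : Profile q a φ m) (x : E3) :
    |m ‖x‖ / ‖x‖ ^ 3| * ‖x‖ ≤ a / 2 := by
  rcases eq_or_ne x 0 with hx | hx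
  · subst hx; have := h.ha; simp; positivity
  have hx0 : 0 < ‖x‖ := norm_pos_iff.mpr hx
  obtain ⟨h1, h2⟩ := h.hm ‖x‖ hx0.le
  rw [abs_div, abs_of_nonpos h1, abs_of_pos (by positivity : 0 < ‖x‖ ^ 3), div_mul_eq_mul_div,
    div_le_iff₀ (by positivity)]
  nlinarith [pow_pos hx0 3]

lemma Profile.norm_grad_le (h : Profile q a φ m) (x : E3) : ‖Grad m x‖ ≤ a / 2 := by
  unfold Grad
  rw [norm_smul, Real.norm_eq_abs]
  exact h.coef_bound x

lemma Profile.measurable_coef (h : Profile q a φ m) :
    Measurable (fun x : E3 => m ‖x‖ / ‖x‖ ^ 3) := by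
  have h1 : Measurable (fun x : E3 => m ‖x‖) := (h.mc.comp continuous_norm).measurable
  have h2 : Measurable (fun x : E3 => ‖x‖ ^ 3) := (continuous_norm.pow 3).measurable
  exact h1.div h2

lemma Profile.measurable_grad (h : Profile q a φ m) : Measurable (Grad m) :=
  h.measurable_coef.smul measurable_id

/-- derivative of the norm along a line -/
lemma hasDerivAt_norm_line {x : E3} (hx : x ≠ 0) (v : E3) :
    HasDerivAt (fun t : ℝ => ‖x + t • v‖) (inner ℝ x v / ‖x‖) 0 := by
  have h1 : HasDerivAt (fun t : ℝ => x + t • v) v 0 := by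
    have := ((hasDerivAt_id (0:ℝ)).smul_const v).const_add x
    rw [one_smul] at this
    exact this
  have h2 := h1.norm_sq
  simp only [zero_smul, add_zero] at h2
  have hx0 : 0 < ‖x‖ := norm_pos_iff.mpr hx
  have h3 := h2.sqrt (by simp [hx])
  simp only [zero_smul, add_zero, Real.sqrt_sq (norm_nonneg _)] at h3
  have e : 2 * inner ℝ x v / (2 * ‖x‖) = inner ℝ x v / ‖x‖ := by
    field_simp
  rw [e] at h3
  exact h3

lemma Profile.lineDeriv_eq (h : Profile q a φ m) {x : E3} (hx : x ≠ 0) (v : E3) :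
    lineDeriv ℝ (fun x : E3 => φ ‖x‖) x v = inner ℝ (Grad m x) v := by
  have hx0 : 0 < ‖x‖ := norm_pos_iff.mpr hx
  have h1 := hasDerivAt_norm_line hx v
  have h2 : HasDerivAt φ (m ‖x‖ / ‖x‖ ^ 2) (‖x + (0:ℝ) • v‖) := by
    simpa using h.dφ ‖x‖ hx0
  have h3 : HasDerivAt (fun t : ℝ => φ ‖x + t • v‖) (m ‖x‖ / ‖x‖ ^ 2 * (inner ℝ x v / ‖x‖)) 0 :=
    HasDerivAt.comp (0:ℝ) h2 h1
  have h4 : HasLineDerivAt ℝ (fun x : E3 => φ ‖x‖)
      (m ‖x‖ / ‖x‖ ^ 2 * (inner ℝ x v / ‖x‖)) x v := h3
  rw [h4.lineDeriv]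
  unfold Grad
  rw [real_inner_smul_left]
  field_simp

lemma Profile.distribGradient (h : Profile q a φ m) :
    IsDistribGradient (fun x : E3 => φ ‖x‖) (Grad m) := by
  intro η hη i
  obtain ⟨D, hD⟩ := hη.1.lipschitzWith_of_hasCompactSupport hη.2 (by simp)
  have key := LipschitzWith.integral_lineDeriv_mul_eq (μ := (volume : Measure E3)) h.lipschitz hD
    hη.2 (EuclideanSpace.single i (1:ℝ))
  have hdiff : Differentiable ℝ η := hη.1.differentiable (by simp)
  have e1 : ∫ x, lineDeriv ℝ (fun x : E3 => φ ‖x‖) x (EuclideanSpace.single i (1:ℝ)) * η x =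
      ∫ x, Grad m x i * η x := by
    apply integral_congr_ae
    have : ∀ᵐ x : E3, x ≠ 0 := by
      rw [ae_iff]
      simp
    filter_upwards [this] with x hx
    rw [h.lineDeriv_eq hx]
    simp [EuclideanSpace.inner_single_right]
  have e2 : ∫ x, lineDeriv ℝ η x (-(EuclideanSpace.single i (1:ℝ))) * φ ‖x‖ =
      - ∫ x, φ ‖x‖ * fderiv ℝ η x (EuclideanSpace.single i (1 : ℝ)) := by
    rw [← integral_neg]
    congr 1
    funext x
    rw [(hdiff x).lineDeriv_eq_fderiv, map_neg]
    ring
  rw [e1, e2] at key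
  rw [key, neg_neg]

lemma locallyIntegrable_inv_norm : LocallyIntegrable (fun x : E3 => ‖x‖⁻¹) volume := by
  intro x
  refine ⟨Metric.ball 0 (‖x‖ + 1), Metric.isOpen_ball.mem_nhds (by simp), ?_⟩
  have := integrableOn_fun_norm_addHaar (E := E3) (volume : Measure E3)
    (f := fun y : ℝ => y⁻¹) (r := ‖x‖ + 1)
  rw [this]
  have hdim : Module.finrank ℝ E3 - 1 = 2 := by simp
  rw [hdim]
  have h2 : IntegrableOn (fun y : ℝ => y) (Ioo 0 (‖x‖ + 1)) :=
    (continuous_id.integrableOn_Icc).mono_set Ioo_subset_Icc_self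
  apply h2.congr_fun _ measurableSet_Ioo
  intro y hy
  have : y ≠ 0 := hy.1.ne'
  simp only [smul_eq_mul]
  field_simp

lemma Profile.continuous_rad (h : Profile q a φ m) : Continuous (fun x : E3 => φ ‖x‖) :=
  h.φc.comp continuous_norm

lemma Profile.weak (h : Profile q a φ m) (hq : 0 < q) {η : E3 → ℝ} (hη : IsTest η) :
    (∫ x, fderiv ℝ η x (Grad m x)) +
      ∫ x, η x * ((|φ ‖x‖| ^ q - ‖x‖⁻¹) * φ ‖x‖) = 0 := by
  have hηc : Continuous η := hη.1.continuous
  have hdiff : Differentiable ℝ η := hη.1.differentiable (by simp)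
  have hfc : Continuous (fderiv ℝ η) := hη.1.continuous_fderiv (by simp)
  have hΦ := h.continuous_rad
  -- first integrand
  have i1 : Integrable (fun x : E3 => fderiv ℝ η x (Grad m x)) := by
    have hb : Integrable (fun x : E3 => a / 2 * ‖fderiv ℝ η x‖) := by
      apply Integrable.const_mul
      exact (hfc.norm).integrable_of_hasCompactSupport (hη.2.fderiv ℝ).norm
    refine hb.mono' ?_ (Filter.Eventually.of_forall fun x => ?_)
    · have e : (fun x : E3 => fderiv ℝ η x (Grad m x)) =
          fun x => (m ‖x‖ / ‖x‖ ^ 3) * (fderiv ℝ η x x) := by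
        funext x
        simp [Grad]
      rw [e]
      have h2 : Continuous (fun x : E3 => fderiv ℝ η x x) := hfc.clm_apply continuous_id
      exact (h.measurable_coef.mul h2.measurable).aestronglyMeasurable
    · refine ((fderiv ℝ η x).le_opNorm _).trans ?_
      rw [mul_comm]
      exact mul_le_mul_of_nonneg_right (h.norm_grad_le x) (norm_nonneg _)
  have i2 : Integrable (fun x : E3 => η x * ((|φ ‖x‖| ^ q - ‖x‖⁻¹) * φ ‖x‖)) := by
    have c1 : Integrable (fun x : E3 => η x * (|φ ‖x‖| ^ q * φ ‖x‖)) := by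
      have hc : Continuous (fun x : E3 => η x * (|φ ‖x‖| ^ q * φ ‖x‖)) :=
        hηc.mul ((hΦ.abs.rpow_const (fun _ => Or.inr hq.le)).mul hΦ)
      exact hc.integrable_of_hasCompactSupport (hη.2.mul_right)
    have c2 : Integrable (fun x : E3 => (η x * φ ‖x‖) • ‖x‖⁻¹) :=
      locallyIntegrable_inv_norm.integrable_smul_left_of_hasCompactSupport
        (hηc.mul hΦ) (hη.2.mul_right)
    have := c1.sub c2
    apply this.congr
    filter_upwards with x
    simp only [Pi.sub_apply, smul_eq_mul]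
    ring
  rw [← integral_add i1 i2]
  have hpol := integral_polar (f := fun x : E3 => fderiv ℝ η x (Grad m x) +
    η x * ((|φ ‖x‖| ^ q - ‖x‖⁻¹) * φ ‖x‖)) (i1.add i2)
  rw [hpol]
  have hzero : ∀ w : Metric.sphere (0 : E3) 1,
      ∫ r in Ioi (0:ℝ), r ^ 2 * (fderiv ℝ η (r • (w : E3)) (Grad m (r • (w : E3))) +
        η (r • (w : E3)) * ((|φ ‖r • (w : E3)‖| ^ q - ‖r • (w : E3)‖⁻¹) *
          φ ‖r • (w : E3)‖)) = 0 := by
    intro w
    have hw : ‖(w : E3)‖ = 1 := by simp
    set D : ℝ → ℝ := fun r => m r * fderiv ℝ η (r • (w : E3)) (w : E3) +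
      (r * (r * φ r ^ (q + 1) - φ r)) * η (r • (w : E3)) with hD
    have hnorm : ∀ r : ℝ, 0 < r → ‖r • (w : E3)‖ = r := by
      intro r hr
      rw [norm_smul, hw, mul_one, Real.norm_eq_abs, abs_of_pos hr]
    have e : ∀ r ∈ Ioi (0:ℝ), r ^ 2 * (fderiv ℝ η (r • (w : E3)) (Grad m (r • (w : E3))) +
        η (r • (w : E3)) * ((|φ ‖r • (w : E3)‖| ^ q - ‖r • (w : E3)‖⁻¹) *
          φ ‖r • (w : E3)‖)) = D r := by
      intro r hr
      have hr0 : 0 < r := hr
      unfold Grad
      rw [hnorm r hr0, map_smul, map_smul]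
      have hφr := (h.hφ r hr0.le).1
      rw [abs_of_pos hφr]
      simp only [hD, smul_eq_mul]
      rw [Real.rpow_add hφr, Real.rpow_one]
      field_simp
    rw [setIntegral_congr_fun measurableSet_Ioi e]
    have hcurve : ∀ r : ℝ, HasDerivAt (fun r : ℝ => η (r • (w : E3)))
        (fderiv ℝ η (r • (w : E3)) (w : E3)) r := by
      intro r
      have h1 : HasDerivAt (fun r : ℝ => r • (w : E3)) (w : E3) r := by
        simpa using (hasDerivAt_id r).smul_const (w : E3)
      exact (hdiff (r • (w : E3))).hasFDerivAt.comp_hasDerivAt r h1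
    have hder : ∀ r ∈ Ioi (0:ℝ), HasDerivAt (fun r => m r * η (r • (w : E3))) (D r) r := by
      intro r hr
      have hr0 : 0 < r := hr
      have := (h.dm r hr0.le).mul (hcurve r)
      have e2 : D r = r * (r * φ r ^ (q + 1) - φ r) * η (r • (w : E3)) +
          m r * (fderiv ℝ η (r • (w : E3))) (w : E3) := by
        simp only [hD]; ring
      rw [e2]
      exact this
    -- compact support
    obtain ⟨R, hR⟩ := hη.2.isCompact.isBounded.subset_closedBall (0 : E3)
    have hout : ∀ r : ℝ, |R| + 1 ≤ r → η (r • (w : E3)) = 0 := by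
      intro r hr
      have hr0 : 0 < r := by have := abs_nonneg R; linarith
      apply image_eq_zero_of_notMem_tsupport
      intro hmem
      have := hR hmem
      rw [Metric.mem_closedBall, dist_zero_right, hnorm r hr0] at this
      have := le_abs_self R
      linarith
    have hout2 : ∀ r : ℝ, |R| + 1 < r → fderiv ℝ η (r • (w : E3)) (w : E3) = 0 := by
      intro r hr
      have h1 : (fun s : ℝ => η (s • (w : E3))) =ᶠ[𝓝 r] fun _ => (0:ℝ) := by
        filter_upwards [lt_mem_nhds hr] with s hs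
        exact hout s hs.le
      have h2 := (hasDerivAt_const r (0:ℝ)).congr_of_eventuallyEq h1
      exact (hcurve r).unique h2
    have hDc : Continuous D := by
      have c1 : Continuous (fun r : ℝ => fderiv ℝ η (r • (w : E3)) (w : E3)) :=
        (hfc.comp (continuous_id.smul continuous_const)).clm_apply continuous_const
      have c2 : Continuous (fun r : ℝ => η (r • (w : E3))) :=
        hηc.comp (continuous_id.smul continuous_const)
      have c3 : Continuous (fun r : ℝ => φ r ^ (q + 1)) :=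
        h.φc.rpow_const (fun _ => Or.inr (by linarith))
      have := h.mc
      have := h.φc
      simp only [hD]
      fun_prop
    have hDint : IntegrableOn D (Ioi 0) := by
      have hR1 : 0 ≤ |R| + 1 := by positivity
      rw [← Ioc_union_Ioi_eq_Ioi hR1]
      apply IntegrableOn.union
      · exact (hDc.integrableOn_Icc).mono_set Ioc_subset_Icc_self
      · have : EqOn (fun _ : ℝ => (0:ℝ)) D (Ioi (|R| + 1)) := by
          intro r hr
          simp only [hD]
          rw [hout2 r hr, hout r (le_of_lt hr)]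
          ring
        exact integrableOn_zero.congr_fun this measurableSet_Ioi
    have hlim : Tendsto (fun r => m r * η (r • (w : E3))) atTop (𝓝 0) := by
      apply tendsto_const_nhds.congr'
      filter_upwards [eventually_ge_atTop (|R| + 1)] with r hr
      rw [hout r hr, mul_zero]
    have hFc : Continuous (fun r => m r * η (r • (w : E3))) :=
      h.mc.mul (hηc.comp (continuous_id.smul continuous_const))
    have := integral_Ioi_of_hasDerivAt_of_tendsto hFc.continuousWithinAt hder hDint hlim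
    rw [this, h.m0]
    simp
  simp only [hzero]
  simp

/-- **Main theorem.** For every real `p > 1` the equation `(E_p)` has a continuous, everywhere
positive solution in `M`, which is a nonincreasing function of `|x|` (in particular it is radial
and bounded by its value at the origin). -/
theorem result :
    ∀ p : ℝ, 1 < p → ∃ ψ : E3 → ℝ, IsSolution p ψ ∧ Continuous ψ ∧ (∀ x, 0 < ψ x) ∧
      ∀ x y, ‖x‖ ≤ ‖y‖ → ψ y ≤ ψ x := by
  intro p hp
  have hq : 0 < 2 * p - 2 := by linarith
  obtain ⟨φ, m, a, ha, φc, mc, -, m0, hφ, dφ, dm, hm⟩ :=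
    Pool.Agent.H75.Lieb.exists_profile (2 * p - 2) hq
  have h : Profile (2 * p - 2) a φ m := ⟨ha, φc, mc, m0, hφ, dφ, dm, hm⟩
  have hΦ := h.continuous_rad
  refine ⟨fun x => φ ‖x‖, ⟨Grad m, ⟨hΦ.locallyIntegrable, ?_, h.distribGradient⟩, ?_, ?_, ?_⟩,
    hΦ, fun x => (hφ ‖x‖ (norm_nonneg x)).1,
    fun x y hxy => h.antitone (norm_nonneg x) (norm_nonneg y) hxy⟩
  · intro K hK
    have : IsFiniteMeasure ((volume : Measure E3).restrict K) :=
      ⟨by simpa using hK.measure_lt_top⟩
    exact MemLp.of_bound h.measurable_grad.aestronglyMeasurable (a / 2)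
      (Filter.Eventually.of_forall h.norm_grad_le)
  · have : Continuous (fun x : E3 => |φ ‖x‖| ^ (2 * p - 1)) :=
      hΦ.abs.rpow_const (fun _ => Or.inr (by linarith))
    exact this.locallyIntegrable
  · have h1 : LocallyIntegrable (fun x : E3 => a • ‖x‖⁻¹) volume :=
      locallyIntegrable_inv_norm.smul a
    refine h1.mono ?_ (Filter.Eventually.of_forall fun x => ?_)
    · have h2 : Measurable (fun x : E3 => ‖x‖⁻¹) := measurable_norm.inv
      exact (h2.mul hΦ.measurable).aestronglyMeasurable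
    · obtain ⟨h3, h4⟩ := hφ ‖x‖ (norm_nonneg x)
      rw [smul_eq_mul, norm_mul, norm_mul, mul_comm, Real.norm_eq_abs (φ ‖x‖),
        Real.norm_eq_abs a, abs_of_pos h3, abs_of_pos ha]
      exact mul_le_mul_of_nonneg_right h4 (norm_nonneg _)
  · intro η hη
    exact h.weak hq hη

end Pool.Agent.Results.MP_30ce6b_an.PositiveSolution
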